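import Pool.Agent.Lib_helper54.Flat.Frame

set_option autoImplicit false
set_option linter.unusedSectionVars false
set_option linter.unusedVariables false

namespace Pool.Agent.Lib_helper54.Flat

open Real

theorem ON.rep {a b c : E3} (h : ON a b c) (v : E3) :
    v = (inner ℝ a v : ℝ) • a + (inner ℝ b v : ℝ) • b + (inner ℝ c v : ℝ) • c := by
  have ba : inner ℝ b a = (0 : ℝ) := by rw [real_inner_comm]; exact h.ab
  have ca : inner ℝ c a = (0 : ℝ) := by rw [real_inner_comm]; exact h.ac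
  have cb : inner ℝ c b = (0 : ℝ) := by rw [real_inner_comm]; exact h.bc
  have hv : Orthonormal ℝ ((Set.univ : Set (Fin 3)).restrict ![a, b, c]) := by
    rw [orthonormal_iff_ite]
    rintro ⟨i, hi⟩ ⟨j, hj⟩
    fin_cases i <;> fin_cases j
    · exact h.aa
    · exact h.ab
    · exact h.ac
    · exact ba
    · exact h.bb
    · exact h.bc
    · exact ca
    · exact cb
    · exact h.cc
  obtain ⟨e, he⟩ := hv.exists_orthonormalBasis_extension_of_card_eq (by simp)
  have h0 : e 0 = a := he 0 (Set.mem_univ _)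
  have h1 : e 1 = b := he 1 (Set.mem_univ _)
  have h2 : e 2 = c := he 2 (Set.mem_univ _)
  have := e.sum_repr v
  rw [Fin.sum_univ_three] at this
  simp only [e.repr_apply_apply] at this
  rw [h0, h1, h2] at this
  exact this.symm

theorem vx_val {n : ℕ} (P : Fin (n + 1) → E3) (i : Fin (n + 1)) : vx P i.val = P i := by
  unfold vx
  congr 1
  exact Fin.ext (Nat.mod_eq_of_lt i.isLt)

theorem vx_of_le {n : ℕ} (P : Fin (n + 1) → E3) {k : ℕ} (hk : k ≤ n) :
    vx P k = P ⟨k, by omega⟩ := vx_val P ⟨k, by omega⟩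

theorem vx_chain {n : ℕ} {p a b c : E3} {ω : ℝ} {l s h θ : ℕ → ℝ} {k : ℕ} (hk : k ≤ n) :
    vx (chain n p a b c ω l s h θ) k = vtx p a b c ω l s h θ k := by
  rw [vx_of_le _ hk]
  rfl

/-- standard data of a configuration -/
noncomputable def len {n : ℕ} (P : Fin (n + 1) → E3) (k : ℕ) : ℝ :=
  if k < n then dist (vx P k) (vx P (k + 1)) else 1

theorem data_of_simple {n : ℕ} {P : Fin (n + 1) → E3} (hP : IsSimple P) :
    Data P (len P) (jointAngle P) := by
  refine ⟨?_, ?_, ?_, ?_, ?_⟩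
  · intro k
    unfold len
    split_ifs with hk
    · rw [vx_of_le P hk.le, vx_of_le P hk]
      exact dist_pos.2 (hP.1 ⟨k, hk⟩)
    · exact one_pos
  · intro i
    unfold len
    rw [if_pos i.isLt, vx_of_le P i.isLt.le, vx_of_le P i.isLt]
    rfl
  · intro i j hij
    unfold jointAngle
    have hj := j.isLt
    rw [vx_of_le P i.isLt.le, vx_of_le P i.isLt, vx_of_le P (by omega : i.val + 2 ≤ n)]
    have : j.succ = ⟨i.val + 2, by omega⟩ := Fin.ext (by simp [hij])
    rw [this]
    rfl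
  · intro k; exact EuclideanGeometry.angle_nonneg _ _ _
  · intro k; exact EuclideanGeometry.angle_le_pi _ _ _

section

variable {n : ℕ} {P : Fin (n + 1) → E3} {l θ : ℕ → ℝ}

theorem Data.len' (hD : Data P l θ) {k : ℕ} (hk : k < n) :
    dist (vx P k) (vx P (k + 1)) = l k := by
  rw [vx_of_le P hk.le, vx_of_le P hk]
  exact hD.len ⟨k, hk⟩

theorem Data.ang' (hD : Data P l θ) {k : ℕ} (hk : k + 2 ≤ n) :
    EuclideanGeometry.angle (vx P k) (vx P (k + 1)) (vx P (k + 2)) = θ k := by
  rw [vx_of_le P (by omega : k ≤ n), vx_of_le P (by omega : k + 1 ≤ n),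
    vx_of_le P (by omega : k + 2 ≤ n)]
  exact hD.ang ⟨k, by omega⟩ ⟨k + 1, by omega⟩ rfl

/-- the angles of a simple configuration are positive -/
theorem theta_pos (hD : Data P l θ) (hP : IsSimple P) {k : ℕ} (hk : k + 2 ≤ n) : 0 < θ k := by
  rcases eq_or_lt_of_le (hD.ang_nonneg k) with h | h
  · exfalso
    have h1 := hD.ang' hk
    rw [← h] at h1
    unfold EuclideanGeometry.angle at h1
    rw [InnerProductGeometry.angle_eq_zero_iff] at h1
    obtain ⟨hne, r, hr, he⟩ := h1
    rw [vsub_eq_sub] at hne he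
    rw [vsub_eq_sub] at he
    have hsub := hP.2.2 ⟨k, by omega⟩ ⟨k + 1, by omega⟩ rfl
    have e0 : P (Fin.castSucc (⟨k, by omega⟩ : Fin n)) = vx P k := by
      rw [vx_of_le P (by omega)]; rfl
    have e1 : P (Fin.succ (⟨k, by omega⟩ : Fin n)) = vx P (k + 1) := by
      rw [vx_of_le P (by omega)]; rfl
    have e2 : P (Fin.castSucc (⟨k + 1, by omega⟩ : Fin n)) = vx P (k + 1) := by
      rw [vx_of_le P (by omega)]; rfl
    have e3 : P (Fin.succ (⟨k + 1, by omega⟩ : Fin n)) = vx P (k + 2) := by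
      rw [vx_of_le P (by omega)]; rfl
    rw [e0, e1, e2, e3] at hsub
    set t : ℝ := min 1 r with ht
    have ht0 : 0 < t := lt_min one_pos hr
    have ht1 : t ≤ 1 := min_le_left _ _
    have htr : t ≤ r := min_le_right _ _
    have hx : vx P (k + 1) + t • (vx P k - vx P (k + 1)) ∈
        segment ℝ (vx P k) (vx P (k + 1)) := by
      refine ⟨t, 1 - t, ht0.le, by linarith, by ring, ?_⟩
      module
    have hx' : vx P (k + 1) + t • (vx P k - vx P (k + 1)) ∈
        segment ℝ (vx P (k + 1)) (vx P (k + 2)) := by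
      refine ⟨1 - t / r, t / r, ?_, by positivity, by ring, ?_⟩
      · rw [sub_nonneg, div_le_one hr]; exact htr
      · have : vx P (k + 2) = vx P (k + 1) + r • (vx P k - vx P (k + 1)) := by
          rw [← he]; abel
        rw [this, smul_add, smul_smul, div_mul_cancel₀ _ hr.ne']
        module
    have hmem := hsub ⟨hx, hx'⟩
    rw [Set.mem_singleton_iff, add_eq_left, smul_eq_zero] at hmem
    rcases hmem with h2 | h2
    · exact ht0.ne' h2
    · exact hne h2
  · exact h

theorem exists_eps (θ : ℕ → ℝ) (m : ℕ) (h : ∀ k, k < m → 0 < θ k) :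
    ∃ ε : ℝ, 0 < ε ∧ ε < π / 2 ∧ ∀ k, k < m → ε + ε ≤ θ k := by
  induction m with
  | zero => exact ⟨π / 4, by positivity, by linarith [pi_pos], fun k hk => absurd hk (by omega)⟩
  | succ m ih =>
    obtain ⟨ε, h0, h1, h2⟩ := ih fun k hk => h k (by omega)
    have hm := h m (by omega)
    refine ⟨min ε (θ m / 2), lt_min h0 (by linarith), lt_of_le_of_lt (min_le_left _ _) h1, ?_⟩
    intro k hk
    have a1 := min_le_left ε (θ m / 2)
    have a2 := min_le_right ε (θ m / 2)
    rcases Nat.lt_succ_iff_lt_or_eq.1 hk with h3 | h3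
    · have := h2 k h3; linarith
    · rw [h3]; linarith

theorem good_const {ε : ℝ} (h0 : 0 ≤ ε) (h1 : ε < π / 2) (h2 : ∀ k, k + 2 ≤ n → ε + ε ≤ θ k)
    (h3 : ∀ k, θ k ≤ π) : Good n θ fun _ => ε := by
  refine ⟨fun _ => h0, fun _ => h1, h2, ?_⟩
  intro k _
  rw [sub_self, abs_zero, sub_nonneg]
  exact h3 k

/-- a straight joint is loose -/
theorem loose_of_pi {i : ℕ} (h3 : ∀ k, θ k ≤ π) (hpos : ∀ k, k + 2 ≤ n → 0 < θ k)
    (hi : θ i = π) : Loose n θ i := by
  obtain ⟨ε, h0, h1, h2⟩ := exists_eps θ (n - 1) fun k hk => hpos k (by omega)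
  refine ⟨fun _ => ε, fun _ => ⟨h0, h1⟩, ?_, Or.inr ?_⟩
  · intro k hk
    refine ⟨h2 k (by omega), ?_⟩
    show |ε - ε| ≤ π - θ k
    rw [sub_self, abs_zero, sub_nonneg]
    exact h3 k
  · show |ε - ε| = π - θ i
    rw [sub_self, abs_zero, hi, sub_self]

theorem cos_angle_links (hD : Data P l θ) {k : ℕ} (hk : k + 2 ≤ n) {u v : E3}
    (hu : vx P (k + 1) - vx P k = l k • u) (hv : vx P (k + 2) - vx P (k + 1) = l (k + 1) • v)
    (hu1 : ‖u‖ = 1) (hv1 : ‖v‖ = 1) : cos (θ k) = -inner ℝ u v := by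
  rw [← hD.ang' hk]
  unfold EuclideanGeometry.angle
  have e1 : vx P k -ᵥ vx P (k + 1) = l k • (-u) := by
    rw [vsub_eq_sub, smul_neg, ← hu]; abel
  have e2 : vx P (k + 2) -ᵥ vx P (k + 1) = l (k + 1) • v := by
    rw [vsub_eq_sub, hv]
  rw [e1, e2, InnerProductGeometry.angle_smul_left_of_pos _ _ (hD.pos _),
    InnerProductGeometry.angle_smul_right_of_pos _ _ (hD.pos _), InnerProductGeometry.cos_angle,
    inner_neg_left, norm_neg, hu1, hv1]
  ring

theorem flat_repr (hD : Data P l θ) {a b c : E3} (hON : ON a b c)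
    (hc : ∀ k, k < n → inner ℝ c (vx P (k + 1) - vx P k) = (0 : ℝ)) :
    ∃ (ω : ℝ) (s : ℕ → ℝ), (∀ k, s k = 1 ∨ s k = -1) ∧
      P = chain n (vx P 0) a b c ω l s (fun _ => 0) θ := by
  have h1 : ∀ k, ∃ φ : ℝ, k < n →
      vx P (k + 1) - vx P k = l k • (cos φ • a + sin φ • b) := by
    intro k
    by_cases hk : k < n
    · have hl := hD.pos k
      have hlen := hD.len' hk
      have hrep := hON.rep (vx P (k + 1) - vx P k)
      rw [hc k hk, zero_smul, add_zero] at hrep
      set x : ℝ := inner ℝ a (vx P (k + 1) - vx P k) with hx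
      set y : ℝ := inner ℝ b (vx P (k + 1) - vx P k) with hy
      have hn : x * x + y * y = l k * l k := by
        have h2 := inner_comb hON x y 0 x y 0
        rw [zero_smul, add_zero, ← hrep, real_inner_self_eq_norm_sq, ← dist_eq_norm,
          dist_comm, hlen] at h2
        linarith
      have h3 : x / l k * (x / l k) + y / l k * (y / l k) = 1 := by
        field_simp
        linarith
      obtain ⟨φ, h4, h5⟩ := exists_angle h3
      refine ⟨φ, fun _ => ?_⟩
      rw [h4, h5, smul_add, smul_smul, smul_smul, mul_div_cancel₀ _ hl.ne',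
        mul_div_cancel₀ _ hl.ne']
      exact hrep
    · exact ⟨0, fun h => absurd h hk⟩
  choose φ hφ using h1
  have hunit : ∀ t : ℝ, ‖cos t • a + sin t • b‖ = 1 := by
    intro t
    have h2 := inner_comb hON (cos t) (sin t) 0 (cos t) (sin t) 0
    rw [zero_smul, add_zero, real_inner_self_eq_norm_sq] at h2
    have h3 := sin_sq_add_cos_sq t
    have h4 := norm_nonneg (cos t • a + sin t • b)
    nlinarith
  have h2 : ∀ k, ∃ s : ℝ, (s = 1 ∨ s = -1) ∧ (k + 2 ≤ n →
      cos (φ (k + 1)) = cos (φ k + s * (π - θ k)) ∧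
      sin (φ (k + 1)) = sin (φ k + s * (π - θ k))) := by
    intro k
    by_cases hk : k + 2 ≤ n
    · have h3 := cos_angle_links hD hk (hφ k (by omega)) (hφ (k + 1) (by omega)) (hunit _)
        (hunit _)
      have h4 := inner_comb hON (cos (φ k)) (sin (φ k)) 0 (cos (φ (k + 1))) (sin (φ (k + 1))) 0
      rw [zero_smul, add_zero, add_zero] at h4
      rw [h4] at h3
      have h5 : cos (π - θ k) = cos (φ (k + 1) - φ k) := by
        rw [cos_pi_sub, cos_sub]; linarith
      rw [Real.cos_eq_cos_iff] at h5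
      obtain ⟨m, hm | hm⟩ := h5
      · refine ⟨1, Or.inl rfl, fun _ => ?_⟩
        have : φ (k + 1) = φ k + 1 * (π - θ k) + m * (2 * π) := by linarith
        rw [this, cos_add_int_mul_two_pi, sin_add_int_mul_two_pi]
        exact ⟨rfl, rfl⟩
      · refine ⟨-1, Or.inr rfl, fun _ => ?_⟩
        have : φ (k + 1) = φ k + (-1) * (π - θ k) + m * (2 * π) := by linarith
        rw [this, cos_add_int_mul_two_pi, sin_add_int_mul_two_pi]
        exact ⟨rfl, rfl⟩
    · exact ⟨1, Or.inl rfl, fun h => absurd h hk⟩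
  choose s hs1 hs2 using h2
  refine ⟨φ 0, s, hs1, ?_⟩
  have haz : ∀ k, k < n → cos (az (φ 0) s (fun _ => 0) θ k) = cos (φ k) ∧
      sin (az (φ 0) s (fun _ => 0) θ k) = sin (φ k) := by
    intro k
    induction k with
    | zero => intro _; exact ⟨rfl, rfl⟩
    | succ k ih =>
      intro hk
      have h3 := ih (by omega)
      rw [az_succ, dlt_zero (hD.ang_nonneg k) (hD.ang_le k), (hs2 k (by omega)).1,
        (hs2 k (by omega)).2, cos_add, sin_add, cos_add, sin_add, h3.1, h3.2]
      exact ⟨rfl, rfl⟩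
  have hv : ∀ k, k ≤ n → vx P k = vtx (vx P 0) a b c (φ 0) l s (fun _ => 0) θ k := by
    intro k
    induction k with
    | zero => intro _; rfl
    | succ k ih =>
      intro hk
      rw [vtx_succ, ← ih (by omega)]
      have h3 := hφ k (by omega)
      unfold dir
      rw [(haz k (by omega)).1, (haz k (by omega)).2]
      simp only [cos_zero, one_mul, sin_zero, zero_smul, add_zero]
      rw [← h3]
      abel
  funext i
  rw [← vx_val P i, hv i.val (by have := i.isLt; omega)]
  rfl

theorem turnProd_chain {p a b c : E3} {ω : ℝ} {s : ℕ → ℝ} (hON : ON a b c)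
    (hs : ∀ k, s k = 1 ∨ s k = -1) (h0 : ∀ k, 0 ≤ θ k) (h1 : ∀ k, θ k ≤ π)
    {i j : ℕ} (hi : i + 2 ≤ n) (hj : j + 2 ≤ n) :
    turnProd (chain n p a b c ω l s (fun _ => 0) θ) i j =
      (l i * l (i + 1) * (l j * l (j + 1))) * (s i * s j * (sin (θ i) * sin (θ j))) := by
  have hlink : ∀ k, k + 1 ≤ n → vx (chain n p a b c ω l s (fun _ => 0) θ) (k + 1) -
      vx (chain n p a b c ω l s (fun _ => 0) θ) k =
      (l k * cos (az ω s (fun _ => 0) θ k)) • a + (l k * sin (az ω s (fun _ => 0) θ k)) • b +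
        (0 : ℝ) • c := by
    intro k hk
    rw [vx_chain hk, vx_chain (by omega), vtx_succ, add_sub_cancel_left]
    unfold dir
    simp only [cos_zero, one_mul, sin_zero, zero_smul, add_zero, smul_add, smul_smul]
  have hsin : ∀ k, sin (az ω s (fun _ => 0) θ (k + 1)) * cos (az ω s (fun _ => 0) θ k) -
      cos (az ω s (fun _ => 0) θ (k + 1)) * sin (az ω s (fun _ => 0) θ k) =
      s k * sin (θ k) := by
    intro k
    rw [← sin_sub, az_succ, add_sub_cancel_left, dlt_zero (h0 k) (h1 k)]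
    rcases hs k with h | h <;> rw [h]
    · rw [one_mul, one_mul, sin_pi_sub]
    · rw [neg_one_mul, neg_one_mul, sin_neg, sin_pi_sub]
  unfold turnProd
  rw [hlink i (by omega), hlink (i + 1) (by omega), hlink j (by omega), hlink (j + 1) (by omega),
    inner_comb hON, inner_comb hON, inner_comb hON, inner_comb hON]
  have e1 := hsin i
  have e2 := hsin j
  have : s i * s j * (sin (θ i) * sin (θ j)) = (s i * sin (θ i)) * (s j * sin (θ j)) := by ring
  rw [this, ← e1, ← e2]
  ring

end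

end Pool.Agent.Lib_helper54.Flat
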