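import Pool.Agent.Lib_helper54.Flat.Main

set_option autoImplicit false
set_option linter.unusedSectionVars false
set_option linter.unusedVariables false

namespace Pool.Agent.Lib_helper54.Flat

open Real

/-- supremum of the latitudes of link `k` allowed by the joints before it -/
noncomputable def Lf (θ : ℕ → ℝ) : ℕ → ℝ
  | 0 => π / 2
  | k + 1 => min (min (π / 2) (θ k)) (π - θ k + Lf θ k)

theorem Lf_succ (θ : ℕ → ℝ) (k : ℕ) :
    Lf θ (k + 1) = min (min (π / 2) (θ k)) (π - θ k + Lf θ k) := rfl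

theorem Lf_le (θ : ℕ → ℝ) (k : ℕ) : Lf θ k ≤ π / 2 := by
  cases k with
  | zero => exact le_rfl
  | succ k => exact (min_le_left _ _).trans (min_le_left _ _)

theorem Lf_pos {θ : ℕ → ℝ} {k : ℕ} (h0 : ∀ j, j < k → 0 < θ j) (h1 : ∀ j, θ j ≤ π) :
    0 < Lf θ k := by
  induction k with
  | zero => exact half_pos pi_pos
  | succ k ih =>
    have h2 := ih fun j hj => h0 j (by omega)
    have h3 := h0 k (by omega)
    have h4 := h1 k
    rw [Lf_succ]
    exact lt_min (lt_min (half_pos pi_pos) h3) (by linarith)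

theorem left_ext {θ : ℕ → ℝ} (h1 : ∀ j, θ j ≤ π) (k : ℕ) :
    (∀ j, j < k → 0 < θ j) → ∀ x, 0 < x → x < Lf θ k →
    ∃ h : ℕ → ℝ, (∀ j, j ≤ k → 0 < h j ∧ h j < π / 2) ∧
      (∀ j, j < k → h j + h (j + 1) ≤ θ j ∧ |h j - h (j + 1)| ≤ π - θ j) ∧ h k = x := by
  induction k with
  | zero =>
    intro _ x hx hx'
    exact ⟨fun _ => x, fun j _ => ⟨hx, hx'⟩, fun j hj => absurd hj (by omega), rfl⟩
  | succ k ih =>
    intro h0 x hx hx'
    have hL : 0 < Lf θ k := Lf_pos (fun j hj => h0 j (by omega)) h1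
    have h3 := h0 k (by omega)
    have h4 := h1 k
    have a1 : x < π / 2 := lt_of_lt_of_le hx' (Lf_le _ _)
    rw [Lf_succ] at hx'
    have a2 : x < θ k := lt_of_lt_of_le hx' ((min_le_left _ _).trans (min_le_right _ _))
    have a3 : x < π - θ k + Lf θ k := lt_of_lt_of_le hx' (min_le_right _ _)
    set m : ℝ := min (θ k - x) (min x (Lf θ k / 2)) with hm
    have b0 : 0 < m := lt_min (by linarith) (lt_min hx (by linarith))
    have b1 : m ≤ θ k - x := min_le_left _ _
    have b2 : m ≤ x := (min_le_right _ _).trans (min_le_left _ _)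
    have b3 : m ≤ Lf θ k / 2 := (min_le_right _ _).trans (min_le_right _ _)
    set y : ℝ := max (x - (π - θ k)) m with hy
    have c0 : 0 < y := lt_of_lt_of_le b0 (le_max_right _ _)
    have c1 : y < Lf θ k := max_lt (by linarith) (by linarith)
    have c2 : y ≤ θ k - x := max_le (by linarith) b1
    have c3 : y ≤ x := max_le (by linarith) b2
    have c4 : x - (π - θ k) ≤ y := le_max_left _ _
    obtain ⟨h, e1, e2, e3⟩ := ih (fun j hj => h0 j (by omega)) y c0 c1
    refine ⟨fun j => if j = k + 1 then x else h j, ?_, ?_, if_pos rfl⟩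
    · intro j hj
      show 0 < (if j = k + 1 then x else h j) ∧ (if j = k + 1 then x else h j) < π / 2
      split_ifs with hjk
      · exact ⟨hx, a1⟩
      · exact e1 j (by omega)
    · intro j hj
      show (if j = k + 1 then x else h j) + (if j + 1 = k + 1 then x else h (j + 1)) ≤ θ j ∧
        |(if j = k + 1 then x else h j) - (if j + 1 = k + 1 then x else h (j + 1))| ≤ π - θ j
      rw [if_neg (by omega : ¬ j = k + 1)]
      by_cases hjk : j = k
      · rw [if_pos (by omega), hjk, e3]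
        refine ⟨by linarith, ?_⟩
        rw [abs_le]
        constructor <;> linarith
      · rw [if_neg (by omega)]
        exact e2 j (by omega)

/-- the joints seen from the other end -/
def rv (n : ℕ) (θ : ℕ → ℝ) (d : ℕ) : ℝ := θ (n - 2 - d)

theorem loose_of {n : ℕ} {θ : ℕ → ℝ} (h1 : ∀ j, θ j ≤ π) (h0 : ∀ j, j + 2 ≤ n → 0 < θ j)
    {i : ℕ} (hi : i + 2 ≤ n) {x y : ℝ} (hx : 0 < x) (hx' : x < Lf θ i) (hy : 0 < y)
    (hy' : y < Lf (rv n θ) (n - 2 - i)) (c1 : x + y ≤ θ i) (c2 : |x - y| ≤ π - θ i)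
    (c3 : x + y = θ i ∨ |x - y| = π - θ i) : Loose n θ i := by
  obtain ⟨hL, e1, e2, e3⟩ := left_ext h1 i (fun j hj => h0 j (by omega)) x hx hx'
  obtain ⟨hR, f1, f2, f3⟩ := left_ext (θ := rv n θ) (fun j => h1 _) (n - 2 - i)
    (fun j hj => h0 _ (by omega)) y hy hy'
  set h : ℕ → ℝ := fun j => if j ≤ i then hL j else if j < n then hR (n - 1 - j) else π / 4
    with hh
  have hi1 : h i = x := by
    simp only [hh]; rw [if_pos le_rfl, e3]
  have hi2 : h (i + 1) = y := by
    simp only [hh]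
    rw [if_neg (by omega), if_pos (by omega), (by omega : n - 1 - (i + 1) = n - 2 - i), f3]
  refine ⟨h, ?_, ?_, ?_⟩
  · intro k
    simp only [hh]
    split_ifs with g1 g2
    · exact e1 k g1
    · exact f1 _ (by omega)
    · constructor <;> linarith [pi_pos]
  · intro k hk
    rcases lt_trichotomy k i with g | g | g
    · have u1 : h k = hL k := if_pos (by omega)
      have u2 : h (k + 1) = hL (k + 1) := if_pos (by omega)
      rw [u1, u2]
      exact e2 k g
    · subst g
      rw [hi1, hi2]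
      exact ⟨c1, c2⟩
    · have u1 : h k = hR (n - 1 - k) := by
        simp only [hh]
        rw [if_neg (by omega), if_pos (by omega)]
      have u2 : h (k + 1) = hR (n - 2 - k) := by
        simp only [hh]
        rw [if_neg (by omega), if_pos (by omega), (by omega : n - 1 - (k + 1) = n - 2 - k)]
      have u3 := f2 (n - 2 - k) (by omega)
      rw [(by omega : n - 2 - k + 1 = n - 1 - k)] at u3
      unfold rv at u3
      rw [(by omega : n - 2 - (n - 2 - k) = k)] at u3
      rw [u1, u2, abs_sub_comm]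
      exact ⟨by linarith [u3.1], u3.2⟩
  · rw [hi1, hi2]
    exact c3

theorem loose_of_reach {n : ℕ} {θ : ℕ → ℝ} (h1 : ∀ j, θ j ≤ π) (h0 : ∀ j, j + 2 ≤ n → 0 < θ j)
    {i : ℕ} (hi : i + 2 ≤ n) {x y : ℝ} (hx : 0 < x) (hx' : x < Lf θ i) (hy : 0 < y)
    (hy' : y < Lf (rv n θ) (n - 2 - i)) (c : θ i ≤ x + y ∨ π - θ i ≤ |x - y|) :
    Loose n θ i := by
  set η : ℝ := min (θ i / 2) (min x y) with hη
  have hθ := h0 i hi
  have a0 : 0 < η := lt_min (by linarith) (lt_min hx hy)
  have a1 : η ≤ θ i / 2 := min_le_left _ _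
  have a2 : η ≤ x := (min_le_right _ _).trans (min_le_left _ _)
  have a3 : η ≤ y := (min_le_right _ _).trans (min_le_right _ _)
  set X : ℝ → ℝ := fun t => (1 - t) * η + t * x with hX
  set Y : ℝ → ℝ := fun t => (1 - t) * η + t * y with hY
  set f : ℝ → ℝ := fun t => max (X t + Y t - θ i) (|X t - Y t| - (π - θ i)) with hf
  have hcont : Continuous f := by
    simp only [hf, hX, hY]
    fun_prop
  have f0 : f 0 ≤ 0 := by
    simp only [hf, hX, hY]
    apply max_le
    · linarith
    · have : |(1 - 0) * η + 0 * x - ((1 - 0) * η + 0 * y)| = 0 := by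
        rw [abs_eq_zero]; ring
      rw [this]
      linarith [h1 i]
  have f1 : 0 ≤ f 1 := by
    simp only [hf, hX, hY]
    rcases c with c | c
    · refine le_trans ?_ (le_max_left _ _)
      linarith
    · refine le_trans ?_ (le_max_right _ _)
      have : (1 - 1) * η + 1 * x - ((1 - 1) * η + 1 * y) = x - y := by ring
      rw [this]
      linarith
  obtain ⟨t, ⟨ht0, ht1⟩, ht⟩ := intermediate_value_Icc (zero_le_one) hcont.continuousOn
    (Set.mem_Icc.2 ⟨f0, f1⟩)
  have hu : 0 ≤ 1 - t := by linarith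
  have hXη : η ≤ X t := by
    simp only [hX]; nlinarith
  have hXx : X t ≤ x := by
    simp only [hX]; nlinarith
  have hYη : η ≤ Y t := by
    simp only [hY]; nlinarith
  have hYy : Y t ≤ y := by
    simp only [hY]; nlinarith
  have g1 : X t + Y t - θ i ≤ 0 := by rw [← ht]; exact le_max_left _ _
  have g2 : |X t - Y t| - (π - θ i) ≤ 0 := by rw [← ht]; exact le_max_right _ _
  have g3 : X t + Y t = θ i ∨ |X t - Y t| = π - θ i := by
    rcases max_choice (X t + Y t - θ i) (|X t - Y t| - (π - θ i)) with e | e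
    · left
      have : X t + Y t - θ i = 0 := by rw [← e]; exact ht
      linarith
    · right
      have : |X t - Y t| - (π - θ i) = 0 := by rw [← e]; exact ht
      linarith
  exact loose_of h1 h0 hi (by linarith) (by linarith) (by linarith) (by linarith)
    (by linarith) (by linarith) g3

/-- what a joint that is not loose satisfies -/
theorem of_not_loose {n : ℕ} {θ : ℕ → ℝ} (h1 : ∀ j, θ j ≤ π) (h0 : ∀ j, j + 2 ≤ n → 0 < θ j)
    {i : ℕ} (hi : i + 2 ≤ n) (hl : ¬ Loose n θ i) :
    Lf θ i + Lf (rv n θ) (n - 2 - i) ≤ θ i ∧ Lf θ i ≤ π - θ i ∧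
      Lf (rv n θ) (n - 2 - i) ≤ π - θ i := by
  have hL : 0 < Lf θ i := Lf_pos (fun j hj => h0 j (by omega)) h1
  have hR : 0 < Lf (rv n θ) (n - 2 - i) := Lf_pos (fun j hj => h0 _ (by omega)) fun j => h1 _
  have hpi := h1 i
  set L := Lf θ i
  set R := Lf (rv n θ) (n - 2 - i)
  refine ⟨?_, ?_, ?_⟩
  · by_contra hc
    push Not at hc
    apply hl
    set δ : ℝ := min (min L R) (L + R - θ i) / 2 with hδ
    have hδ0 : 0 < δ := by
      have := lt_min (lt_min hL hR) (by linarith : 0 < L + R - θ i)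
      rw [hδ]; linarith
    have d1 : min (min L R) (L + R - θ i) ≤ L := (min_le_left _ _).trans (min_le_left _ _)
    have d2 : min (min L R) (L + R - θ i) ≤ R := (min_le_left _ _).trans (min_le_right _ _)
    have d3 : min (min L R) (L + R - θ i) ≤ L + R - θ i := min_le_right _ _
    exact loose_of_reach h1 h0 hi (x := L - δ) (y := R - δ) (by linarith) (by linarith)
      (by linarith) (by linarith) (Or.inl (by linarith))
  · by_contra hc
    push Not at hc
    apply hl
    set δ : ℝ := min R (L - (π - θ i)) / 4 with hδ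
    have hm := lt_min hR (by linarith : 0 < L - (π - θ i))
    have d1 : min R (L - (π - θ i)) ≤ R := min_le_left _ _
    have d2 : min R (L - (π - θ i)) ≤ L - (π - θ i) := min_le_right _ _
    refine loose_of_reach h1 h0 hi (x := L - δ) (y := δ) (by linarith) (by linarith)
      (by linarith) (by linarith) (Or.inr ?_)
    exact le_trans (by linarith) (le_abs_self _)
  · by_contra hc
    push Not at hc
    apply hl
    set δ : ℝ := min L (R - (π - θ i)) / 4 with hδ
    have hm := lt_min hL (by linarith : 0 < R - (π - θ i))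
    have d1 : min L (R - (π - θ i)) ≤ L := min_le_left _ _
    have d2 : min L (R - (π - θ i)) ≤ R - (π - θ i) := min_le_right _ _
    refine loose_of_reach h1 h0 hi (x := δ) (y := R - δ) (by linarith) (by linarith)
      (by linarith) (by linarith) (Or.inr ?_)
    rw [abs_sub_comm]
    exact le_trans (by linarith) (le_abs_self _)

/-- the first joint is loose -/
theorem loose_first {n : ℕ} {θ : ℕ → ℝ} (h1 : ∀ j, θ j ≤ π) (h0 : ∀ j, j + 2 ≤ n → 0 < θ j)
    (hn : 2 ≤ n) : Loose n θ 0 := by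
  by_contra hl
  obtain ⟨e1, e2, e3⟩ := of_not_loose h1 h0 (by omega) hl
  have hR : 0 < Lf (rv n θ) (n - 2 - 0) := Lf_pos (fun j hj => h0 _ (by omega)) fun j => h1 _
  have : Lf θ 0 = π / 2 := rfl
  linarith

/-- the last joint is loose -/
theorem loose_last {n : ℕ} {θ : ℕ → ℝ} (h1 : ∀ j, θ j ≤ π) (h0 : ∀ j, j + 2 ≤ n → 0 < θ j)
    {i : ℕ} (hn : i + 2 = n) : Loose n θ i := by
  by_contra hl
  obtain ⟨e1, e2, e3⟩ := of_not_loose h1 h0 (by omega) hl
  have hL : 0 < Lf θ i := Lf_pos (fun j hj => h0 _ (by omega)) fun j => h1 _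
  rw [(by omega : n - 2 - i = 0)] at e1 e3
  have : Lf (rv n θ) 0 = π / 2 := rfl
  linarith

/-- two consecutive joints are not both tight -/
theorem loose_or_loose {n : ℕ} {θ : ℕ → ℝ} (h1 : ∀ j, θ j ≤ π)
    (h0 : ∀ j, j + 2 ≤ n → 0 < θ j) {i : ℕ} (hi : i + 3 ≤ n) :
    Loose n θ i ∨ Loose n θ (i + 1) := by
  by_contra hc
  push Not at hc
  obtain ⟨a1, a2, a3⟩ := of_not_loose h1 h0 (by omega) hc.1
  obtain ⟨b1, b2, b3⟩ := of_not_loose h1 h0 (by omega) hc.2
  have hL : 0 < Lf θ i := Lf_pos (fun j hj => h0 j (by omega)) h1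
  have hR : 0 < Lf (rv n θ) (n - 2 - (i + 1)) :=
    Lf_pos (fun j hj => h0 _ (by omega)) fun j => h1 _
  have eR : Lf (rv n θ) (n - 2 - i) = min (min (π / 2) (θ (i + 1)))
      (π - θ (i + 1) + Lf (rv n θ) (n - 2 - (i + 1))) := by
    rw [(by omega : n - 2 - i = n - 2 - (i + 1) + 1), Lf_succ]
    unfold rv
    rw [(by omega : n - 2 - (n - 2 - (i + 1)) = i + 1)]
  have eL := Lf_succ θ i
  rw [eR] at a1 a3
  rw [eL] at b1 b2
  set L := Lf θ i
  set R := Lf (rv n θ) (n - 2 - (i + 1))
  have p1 := h0 i (by omega)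
  have p2 := h0 (i + 1) (by omega)
  have q1 := h1 i
  have q2 := h1 (i + 1)
  rcases min_choice (min (π / 2) (θ i)) (π - θ i + L) with u | u
  · rw [u] at b1 b2
    rcases min_choice (π / 2) (θ i) with u' | u' <;> rw [u'] at b1 b2 <;>
    rcases min_choice (min (π / 2) (θ (i + 1))) (π - θ (i + 1) + R) with v | v
    · linarith
    · linarith
    · rw [v] at a1 a3
      rcases min_choice (π / 2) (θ (i + 1)) with v' | v' <;> rw [v'] at a1 a3 <;> linarith
    · rw [v] at a1 a3
      linarith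
  · rw [u] at b1 b2
    rcases min_choice (min (π / 2) (θ (i + 1))) (π - θ (i + 1) + R) with v | v
    · rw [v] at a1 a3
      rcases min_choice (π / 2) (θ (i + 1)) with v' | v' <;> rw [v'] at a1 a3 <;> linarith
    · rw [v] at a1 a3
      linarith

theorem Lf_ge {θ : ℕ → ℝ} {μ : ℝ} (hμ : μ ≤ π / 2) {k : ℕ} (h1 : ∀ j, θ j ≤ π)
    (h2 : ∀ j, j < k → μ ≤ θ j) : μ ≤ Lf θ k := by
  induction k with
  | zero => exact hμ
  | succ k ih =>
    have h3 := ih fun j hj => h2 j (by omega)
    have h4 := h1 k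
    rw [Lf_succ]
    exact le_min (le_min hμ (h2 k (by omega))) (by linarith)

theorem loose_of_mu {n : ℕ} {θ : ℕ → ℝ} (h1 : ∀ j, θ j ≤ π) {μ : ℝ} (hμ : 0 < μ)
    (h2 : ∀ j, j + 2 ≤ n → μ ≤ θ j) {i : ℕ} (hi : i + 2 ≤ n)
    (h3 : θ i < 2 * μ ∨ π - μ < θ i) : Loose n θ i := by
  by_contra hl
  obtain ⟨e1, e2, e3⟩ := of_not_loose h1 (fun j hj => lt_of_lt_of_le hμ (h2 j hj)) hi hl
  have g1 : min μ (π / 2) ≤ Lf θ i := Lf_ge (min_le_right _ _) h1
    fun j hj => (min_le_left _ _).trans (h2 j (by omega))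
  have g2 : min μ (π / 2) ≤ Lf (rv n θ) (n - 2 - i) := Lf_ge (min_le_right _ _)
    (fun j => h1 _) fun j hj => (min_le_left _ _).trans (h2 _ (by omega))
  have h4 := h2 i hi
  rcases le_total μ (π / 2) with h | h
  · rw [min_eq_left h] at g1 g2
    rcases h3 with h3 | h3 <;> linarith
  · rw [min_eq_right h] at g1 g2
    have := pi_pos
    rcases eq_or_lt_of_le h with h5 | h5
    · rcases h3 with h3 | h3 <;> linarith
    · linarith

end Pool.Agent.Lib_helper54.Flat
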