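import Pool.Agent.Lib_helper54.Flat.Defs

set_option autoImplicit false
set_option linter.unusedSectionVars false
set_option linter.unusedVariables false

namespace Pool.Agent.Lib_helper54.Flat

open Real

/-- an orthonormal frame -/
structure ON (a b c : E3) : Prop where
  aa : inner ℝ a a = 1
  bb : inner ℝ b b = 1
  cc : inner ℝ c c = 1
  ab : inner ℝ a b = 0
  ac : inner ℝ a c = 0
  bc : inner ℝ b c = 0

theorem inner_comb {a b c : E3} (h : ON a b c) (x y z x' y' z' : ℝ) :
    inner ℝ (x • a + y • b + z • c) (x' • a + y' • b + z' • c) = x * x' + y * y' + z * z' := by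
  have ba : inner ℝ b a = 0 := by rw [real_inner_comm]; exact h.ab
  have ca : inner ℝ c a = 0 := by rw [real_inner_comm]; exact h.ac
  have cb : inner ℝ c b = 0 := by rw [real_inner_comm]; exact h.bc
  simp only [inner_add_left, inner_add_right, inner_smul_left, inner_smul_right, h.aa, h.bb, h.cc,
    h.ab, h.ac, h.bc, ba, ca, cb]
  simp only [RCLike.conj_to_real]
  ring

/-- the difference of longitudes -/
noncomputable def dlt (θ x y : ℝ) : ℝ :=
  arccos ((-cos θ - sin x * sin y) / (cos x * cos y))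

theorem ratio_mem {θ x y : ℝ} (hx : 0 ≤ x) (hx' : x < π / 2) (hy : 0 ≤ y) (hy' : y < π / 2)
    (hθ' : θ ≤ π) (h1 : x + y ≤ θ) (h2 : |x - y| ≤ π - θ) :
    -1 ≤ (-cos θ - sin x * sin y) / (cos x * cos y) ∧
      (-cos θ - sin x * sin y) / (cos x * cos y) ≤ 1 := by
  have hcx : 0 < cos x := cos_pos_of_mem_Ioo ⟨by linarith [pi_pos], hx'⟩
  have hcy : 0 < cos y := cos_pos_of_mem_Ioo ⟨by linarith [pi_pos], hy'⟩
  have hp : 0 < cos x * cos y := mul_pos hcx hcy
  have e1 : cos θ ≤ cos (x + y) :=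
    cos_le_cos_of_nonneg_of_le_pi (by linarith) hθ' h1
  have e2 : cos (π - θ) ≤ cos (x - y) := by
    rw [← cos_abs (x - y)]
    exact cos_le_cos_of_nonneg_of_le_pi (abs_nonneg _) (by linarith) h2
  rw [cos_pi_sub, cos_sub] at e2
  rw [cos_add] at e1
  constructor
  · rw [le_div_iff₀ hp]; linarith
  · rw [div_le_iff₀ hp]; linarith

theorem cos_dlt {θ x y : ℝ} (hx : 0 ≤ x) (hx' : x < π / 2) (hy : 0 ≤ y) (hy' : y < π / 2)
    (hθ' : θ ≤ π) (h1 : x + y ≤ θ) (h2 : |x - y| ≤ π - θ) :
    cos x * cos y * cos (dlt θ x y) + sin x * sin y = -cos θ := by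
  have hcx : 0 < cos x := cos_pos_of_mem_Ioo ⟨by linarith [pi_pos], hx'⟩
  have hcy : 0 < cos y := cos_pos_of_mem_Ioo ⟨by linarith [pi_pos], hy'⟩
  have hr := ratio_mem hx hx' hy hy' hθ' h1 h2
  unfold dlt
  rw [cos_arccos hr.1 hr.2]
  field_simp
  ring

theorem dlt_of_sum {θ x y : ℝ} (hx' : |x| < π / 2) (hy' : |y| < π / 2) (h : x + y = θ) :
    dlt θ x y = π := by
  have hcx : 0 < cos x := cos_pos_of_mem_Ioo (abs_lt.1 hx')
  have hcy : 0 < cos y := cos_pos_of_mem_Ioo (abs_lt.1 hy')
  unfold dlt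
  rw [← h, cos_add]
  have : (-(cos x * cos y - sin x * sin y) - sin x * sin y) / (cos x * cos y) = -1 := by
    field_simp
    ring
  rw [this, arccos_neg_one]

theorem dlt_of_diff {θ x y : ℝ} (hx' : |x| < π / 2) (hy' : |y| < π / 2) (h : |x - y| = π - θ) :
    dlt θ x y = 0 := by
  have hcx : 0 < cos x := cos_pos_of_mem_Ioo (abs_lt.1 hx')
  have hcy : 0 < cos y := cos_pos_of_mem_Ioo (abs_lt.1 hy')
  have hc : -cos θ = cos x * cos y + sin x * sin y := by
    rw [← cos_sub, ← cos_abs (x - y), h, cos_pi_sub]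
  unfold dlt
  rw [hc]
  have : (cos x * cos y + sin x * sin y - sin x * sin y) / (cos x * cos y) = 1 := by
    field_simp
    ring
  rw [this, arccos_one]

theorem dlt_zero {θ : ℝ} (h0 : 0 ≤ θ) (h1 : θ ≤ π) : dlt θ 0 0 = π - θ := by
  unfold dlt
  simp only [sin_zero, mul_zero, sub_zero, cos_zero, mul_one, div_one]
  rw [arccos_neg, arccos_cos h0 h1]

/-- longitudes -/
noncomputable def az (ω : ℝ) (s h θ : ℕ → ℝ) : ℕ → ℝ
  | 0 => ω
  | k + 1 => az ω s h θ k + s k * dlt (θ k) (h k) (h (k + 1))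

/-- directions of the links -/
noncomputable def dir (a b c : E3) (ω : ℝ) (s h θ : ℕ → ℝ) (k : ℕ) : E3 :=
  (cos (h k) * cos (az ω s h θ k)) • a + (cos (h k) * sin (az ω s h θ k)) • b + sin (h k) • c

/-- vertices -/
noncomputable def vtx (p a b c : E3) (ω : ℝ) (l s h θ : ℕ → ℝ) : ℕ → E3
  | 0 => p
  | k + 1 => vtx p a b c ω l s h θ k + l k • dir a b c ω s h θ k

/-- the chain -/
noncomputable def chain (n : ℕ) (p a b c : E3) (ω : ℝ) (l s h θ : ℕ → ℝ) : Fin (n + 1) → E3 :=
  fun i => vtx p a b c ω l s h θ i.val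

section

variable {n : ℕ} {p a b c : E3} {ω : ℝ} {l s h θ : ℕ → ℝ}

theorem vtx_succ (k : ℕ) : vtx p a b c ω l s h θ (k + 1) =
    vtx p a b c ω l s h θ k + l k • dir a b c ω s h θ k := rfl

theorem az_succ (k : ℕ) : az ω s h θ (k + 1) =
    az ω s h θ k + s k * dlt (θ k) (h k) (h (k + 1)) := rfl

theorem chain_castSucc (i : Fin n) :
    chain n p a b c ω l s h θ i.castSucc = vtx p a b c ω l s h θ i.val := rfl

theorem chain_succ (i : Fin n) :
    chain n p a b c ω l s h θ i.succ = vtx p a b c ω l s h θ (i.val + 1) := rfl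

theorem dir_inner_self (hON : ON a b c) (k : ℕ) :
    inner ℝ (dir a b c ω s h θ k) (dir a b c ω s h θ k) = 1 := by
  unfold dir
  rw [inner_comb hON]
  have h1 := sin_sq_add_cos_sq (h k)
  have h2 := sin_sq_add_cos_sq (az ω s h θ k)
  linear_combination h1 + (cos (h k)) ^ 2 * h2

theorem dir_norm (hON : ON a b c) (k : ℕ) : ‖dir a b c ω s h θ k‖ = 1 := by
  have h1 := dir_inner_self (ω := ω) (s := s) (h := h) (θ := θ) hON k
  rw [real_inner_self_eq_norm_sq] at h1
  have h2 := norm_nonneg (dir a b c ω s h θ k)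
  nlinarith

theorem dir_height (hON : ON a b c) (k : ℕ) : inner ℝ c (dir a b c ω s h θ k) = sin (h k) := by
  have : c = (0 : ℝ) • a + (0 : ℝ) • b + (1 : ℝ) • c := by simp
  unfold dir
  conv_lhs => rw [this]
  simp only [zero_smul, zero_add, one_smul]
  have h2 := inner_comb hON 0 0 1 (cos (h k) * cos (az ω s h θ k))
    (cos (h k) * sin (az ω s h θ k)) (sin (h k))
  simp only [zero_smul, zero_add, one_smul, zero_mul, one_mul] at h2
  exact h2

theorem dir_inner_succ (hON : ON a b c) (k : ℕ) (hs : s k = 1 ∨ s k = -1)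
    (hx : 0 ≤ h k) (hx' : h k < π / 2) (hy : 0 ≤ h (k + 1)) (hy' : h (k + 1) < π / 2)
    (hθ' : θ k ≤ π) (h1 : h k + h (k + 1) ≤ θ k) (h2 : |h k - h (k + 1)| ≤ π - θ k) :
    inner ℝ (dir a b c ω s h θ k) (dir a b c ω s h θ (k + 1)) = -cos (θ k) := by
  unfold dir
  rw [inner_comb hON, ← cos_dlt hx hx' hy hy' hθ' h1 h2]
  have e : cos (dlt (θ k) (h k) (h (k + 1))) =
      cos (az ω s h θ k) * cos (az ω s h θ (k + 1)) +
        sin (az ω s h θ k) * sin (az ω s h θ (k + 1)) := by
    have : cos (az ω s h θ k) * cos (az ω s h θ (k + 1)) +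
        sin (az ω s h θ k) * sin (az ω s h θ (k + 1)) =
        cos (az ω s h θ (k + 1) - az ω s h θ k) := by rw [cos_sub]; ring
    rw [this, az_succ, add_sub_cancel_left]
    rcases hs with hs | hs
    · rw [hs, one_mul]
    · rw [hs, neg_one_mul, cos_neg]
  rw [e]
  ring

theorem dist_vtx (hON : ON a b c) (k : ℕ) (hl : 0 < l k) :
    dist (vtx p a b c ω l s h θ k) (vtx p a b c ω l s h θ (k + 1)) = l k := by
  rw [vtx_succ, dist_eq_norm]
  have : vtx p a b c ω l s h θ k - (vtx p a b c ω l s h θ k + l k • dir a b c ω s h θ k) =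
    -(l k • dir a b c ω s h θ k) := by abel
  rw [this, norm_neg, norm_smul, dir_norm hON, mul_one, Real.norm_eq_abs, abs_of_pos hl]

theorem angle_vtx (hON : ON a b c) (k : ℕ) (hl : 0 < l k) (hl' : 0 < l (k + 1))
    (hs : s k = 1 ∨ s k = -1)
    (hx : 0 ≤ h k) (hx' : h k < π / 2) (hy : 0 ≤ h (k + 1)) (hy' : h (k + 1) < π / 2)
    (hθ : 0 ≤ θ k) (hθ' : θ k ≤ π) (h1 : h k + h (k + 1) ≤ θ k)
    (h2 : |h k - h (k + 1)| ≤ π - θ k) :
    EuclideanGeometry.angle (vtx p a b c ω l s h θ k) (vtx p a b c ω l s h θ (k + 1))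
      (vtx p a b c ω l s h θ (k + 2)) = θ k := by
  unfold EuclideanGeometry.angle
  have e1 : vtx p a b c ω l s h θ k -ᵥ vtx p a b c ω l s h θ (k + 1) =
      l k • (-(dir a b c ω s h θ k)) := by
    rw [vtx_succ, vsub_eq_sub, smul_neg]; abel
  have e2 : vtx p a b c ω l s h θ (k + 2) -ᵥ vtx p a b c ω l s h θ (k + 1) =
      l (k + 1) • dir a b c ω s h θ (k + 1) := by
    rw [vtx_succ (k + 1), vsub_eq_sub]; abel
  rw [e1, e2, InnerProductGeometry.angle_smul_left_of_pos _ _ hl,
    InnerProductGeometry.angle_smul_right_of_pos _ _ hl']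
  unfold InnerProductGeometry.angle
  rw [inner_neg_left, dir_inner_succ hON k hs hx hx' hy hy' hθ' h1 h2, norm_neg, dir_norm hON,
    dir_norm hON, mul_one, div_one, neg_neg, arccos_cos hθ hθ']

theorem height_succ (hON : ON a b c) (k : ℕ) :
    inner ℝ c (vtx p a b c ω l s h θ (k + 1)) =
      inner ℝ c (vtx p a b c ω l s h θ k) + l k * sin (h k) := by
  rw [vtx_succ, inner_add_right, inner_smul_right, dir_height hON]

/-- a chain that climbs strictly is simple -/
theorem simple_of_pos (hON : ON a b c) (hl : ∀ k, 0 < l k) (hh : ∀ k, 0 < h k ∧ h k < π / 2) :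
    IsSimple (chain n p a b c ω l s h θ) := by
  set v := vtx p a b c ω l s h θ with hv
  have hstep : ∀ k, inner ℝ c (v k) < inner ℝ c (v (k + 1)) := by
    intro k
    rw [hv, height_succ hON]
    have : 0 < sin (h k) := sin_pos_of_pos_of_lt_pi (hh k).1 (by linarith [(hh k).2, pi_pos])
    have := mul_pos (hl k) this
    linarith
  have hmono : StrictMono fun k => inner ℝ c (v k) := strictMono_nat_of_lt_succ hstep
  have hseg : ∀ k x, x ∈ segment ℝ (v k) (v (k + 1)) →
      inner ℝ c (v k) ≤ inner ℝ c x ∧ inner ℝ c x ≤ inner ℝ c (v (k + 1)) := by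
    rintro k x ⟨α, β, hα, hβ, hαβ, rfl⟩
    rw [inner_add_right, inner_smul_right, inner_smul_right]
    have := hstep k
    have e : α = 1 - β := by linarith
    constructor
    · rw [e]; nlinarith
    · rw [e]; nlinarith
  refine ⟨?_, ?_, ?_⟩
  · intro i heq
    rw [chain_castSucc, chain_succ] at heq
    have := hstep i.val
    rw [hv, heq] at this
    exact lt_irrefl _ this
  · intro i j hij
    rw [chain_castSucc, chain_succ, chain_castSucc, chain_succ, Set.disjoint_left]
    intro x hx hx'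
    have h1 := (hseg _ _ hx).2
    have h2 := (hseg _ _ hx').1
    have h3 : inner ℝ c (v (i.val + 1)) < inner ℝ c (v j.val) := hmono hij
    linarith
  · intro i j hij
    rw [chain_castSucc, chain_succ, chain_castSucc, chain_succ, hij]
    rintro x ⟨hx, hx'⟩
    have h2 := (hseg _ _ hx').1
    obtain ⟨α, β, hα, hβ, hαβ, rfl⟩ := hx
    have h3 := hstep i.val
    have h4 : inner ℝ c (α • v i.val + β • v (i.val + 1)) =
        α * inner ℝ c (v i.val) + β * inner ℝ c (v (i.val + 1)) := by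
      rw [inner_add_right, inner_smul_right, inner_smul_right]
    have h5 : α = 0 := by
      have e : β = 1 - α := by linarith
      rw [h4, e] at h2
      have : α * (inner ℝ c (v (i.val + 1)) - inner ℝ c (v i.val)) ≤ 0 := by linarith
      by_contra hne
      have hpos : 0 < α := lt_of_le_of_ne hα (Ne.symm hne)
      have := mul_pos hpos (sub_pos.2 h3)
      linarith
    have h6 : β = 1 := by linarith
    rw [h5, h6]
    simp [hv]

/-- hypotheses on the data of a chain with `n` links -/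
structure Good (n : ℕ) (θ h : ℕ → ℝ) : Prop where
  nonneg : ∀ k, 0 ≤ h k
  lt : ∀ k, h k < π / 2
  sum : ∀ k, k + 2 ≤ n → h k + h (k + 1) ≤ θ k
  diff : ∀ k, k + 2 ≤ n → |h k - h (k + 1)| ≤ π - θ k

/-- `l`, `θ` are the lengths and angles of `P` -/
structure Data {n : ℕ} (P : Fin (n + 1) → E3) (l θ : ℕ → ℝ) : Prop where
  pos : ∀ k, 0 < l k
  len : ∀ i : Fin n, dist (P i.castSucc) (P i.succ) = l i.val
  ang : ∀ i j : Fin n, j.val = i.val + 1 →
    EuclideanGeometry.angle (P i.castSucc) (P i.succ) (P j.succ) = θ i.val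
  ang_nonneg : ∀ k, 0 ≤ θ k
  ang_le : ∀ k, θ k ≤ π

theorem mem_free {P : Fin (n + 1) → E3} (hD : Data P l θ) (hON : ON a b c) (hG : Good n θ h)
    (hs : ∀ k, s k = 1 ∨ s k = -1) (hsimple : IsSimple (chain n p a b c ω l s h θ)) :
    chain n p a b c ω l s h θ ∈ freeSpace P := by
  refine ⟨hsimple, ?_, ?_⟩
  · intro i
    rw [hD.len i, chain_castSucc, chain_succ, dist_vtx hON _ (hD.pos _)]
  · intro i j hij
    have hi2 : i.val + 2 ≤ n := by have := j.isLt; omega
    rw [hD.ang i j hij, chain_castSucc, chain_succ, chain_succ, hij]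
    exact angle_vtx hON i.val (hD.pos _) (hD.pos _) (hs _) (hG.nonneg _) (hG.lt _) (hG.nonneg _)
      (hG.lt _) (hD.ang_nonneg _) (hD.ang_le _) (hG.sum _ hi2) (hG.diff _ hi2)

end

/-- continuity of the chain in its parameters -/
theorem continuous_vtx {X : Type} [TopologicalSpace X] {p a b c : X → E3} {ω : X → ℝ}
    {l s θ : ℕ → ℝ} {h : X → ℕ → ℝ} (hp : Continuous p) (ha : Continuous a) (hb : Continuous b)
    (hc : Continuous c) (hω : Continuous ω) (hh : ∀ k, Continuous fun t => h t k)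
    (hpos : ∀ t k, 0 ≤ h t k ∧ h t k < π / 2) (k : ℕ) :
    Continuous fun t => vtx (p t) (a t) (b t) (c t) (ω t) l s (h t) θ k := by
  have hcos : ∀ t k, cos (h t k) ≠ 0 := fun t k =>
    (cos_pos_of_mem_Ioo ⟨by linarith [pi_pos, (hpos t k).1], (hpos t k).2⟩).ne'
  have haz : ∀ k, Continuous fun t => az (ω t) s (h t) θ k := by
    intro k
    induction k with
    | zero => exact hω
    | succ k ih =>
      have : (fun t => az (ω t) s (h t) θ (k + 1)) = fun t => az (ω t) s (h t) θ k +
        s k * arccos ((-cos (θ k) - sin (h t k) * sin (h t (k + 1))) /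
          (cos (h t k) * cos (h t (k + 1)))) := rfl
      rw [this]
      refine ih.add (continuous_const.mul (continuous_arccos.comp ?_))
      refine Continuous.div ?_ ?_ ?_
      · exact continuous_const.sub ((continuous_sin.comp (hh k)).mul
          (continuous_sin.comp (hh (k + 1))))
      · exact (continuous_cos.comp (hh k)).mul (continuous_cos.comp (hh (k + 1)))
      · intro t; exact mul_ne_zero (hcos t k) (hcos t (k + 1))
  have hdir : ∀ k, Continuous fun t => dir (a t) (b t) (c t) (ω t) s (h t) θ k := by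
    intro k
    have e1 : Continuous fun t => cos (h t k) * cos (az (ω t) s (h t) θ k) :=
      (continuous_cos.comp (hh k)).mul (continuous_cos.comp (haz k))
    have e2 : Continuous fun t => cos (h t k) * sin (az (ω t) s (h t) θ k) :=
      (continuous_cos.comp (hh k)).mul (continuous_sin.comp (haz k))
    have e3 : Continuous fun t => sin (h t k) := continuous_sin.comp (hh k)
    exact ((e1.smul ha).add (e2.smul hb)).add (e3.smul hc)
  induction k with
  | zero => exact hp
  | succ k ih =>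
    have : (fun t => vtx (p t) (a t) (b t) (c t) (ω t) l s (h t) θ (k + 1)) = fun t =>
      vtx (p t) (a t) (b t) (c t) (ω t) l s (h t) θ k +
        l k • dir (a t) (b t) (c t) (ω t) s (h t) θ k := rfl
    rw [this]
    have e : Continuous fun t => l k • dir (a t) (b t) (c t) (ω t) s (h t) θ k :=
      (continuous_const : Continuous fun _ : X => l k).smul (hdir k)
    exact ih.add e

theorem joined_family {n : ℕ} {P : Fin (n + 1) → E3} {p a b c : unitInterval → E3}
    {ω : unitInterval → ℝ} {l s θ : ℕ → ℝ} {h : unitInterval → ℕ → ℝ} (hD : Data P l θ)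
    (hs : ∀ k, s k = 1 ∨ s k = -1)
    (hp : Continuous p) (ha : Continuous a) (hb : Continuous b)
    (hc : Continuous c) (hω : Continuous ω) (hh : ∀ k, Continuous fun t => h t k)
    (hON : ∀ t, ON (a t) (b t) (c t)) (hG : ∀ t, Good n θ (h t))
    (hsimple : ∀ t, IsSimple (chain n (p t) (a t) (b t) (c t) (ω t) l s (h t) θ)) :
    JoinedIn (freeSpace P) (chain n (p 0) (a 0) (b 0) (c 0) (ω 0) l s (h 0) θ)
      (chain n (p 1) (a 1) (b 1) (c 1) (ω 1) l s (h 1) θ) := by
  refine ⟨⟨⟨fun t => chain n (p t) (a t) (b t) (c t) (ω t) l s (h t) θ, ?_⟩, rfl, rfl⟩, ?_⟩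
  · rw [continuous_pi_iff]
    intro i
    exact continuous_vtx hp ha hb hc hω hh (fun t k => ⟨(hG t).nonneg k, (hG t).lt k⟩) i.val
  · intro t
    exact mem_free hD (hON t) (hG t) hs (hsimple t)

end Pool.Agent.Lib_helper54.Flat
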