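import Mathlib

set_option autoImplicit false

namespace Pool.Agent.Lib_helper54.Flat

open Real

/-- Euclidean space of dimension three. -/
abbrev E3 : Type := EuclideanSpace ℝ (Fin 3)

/-- A configuration (the list of vertices `p 0, ..., p n`) is non-self-intersecting: consecutive
vertices differ, links that are not consecutive are disjoint, and consecutive links meet only in
their common vertex. -/
def IsSimple {n : ℕ} (p : Fin (n + 1) → E3) : Prop :=
  (∀ i : Fin n, p i.castSucc ≠ p i.succ) ∧
  (∀ i j : Fin n, i.val + 1 < j.val →
    Disjoint (segment ℝ (p i.castSucc) (p i.succ)) (segment ℝ (p j.castSucc) (p j.succ))) ∧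
  (∀ i j : Fin n, j.val = i.val + 1 →
    segment ℝ (p i.castSucc) (p i.succ) ∩ segment ℝ (p j.castSucc) (p j.succ) ⊆ {p i.succ})

/-- The free space of the fixed-angle chain of the configuration `P`: all non-self-intersecting
configurations with the same link lengths and the same joint angles as `P`. -/
def freeSpace {n : ℕ} (P : Fin (n + 1) → E3) : Set (Fin (n + 1) → E3) :=
  {R | IsSimple R ∧
    (∀ i : Fin n, dist (R i.castSucc) (R i.succ) = dist (P i.castSucc) (P i.succ)) ∧
    (∀ i j : Fin n, j.val = i.val + 1 →
      EuclideanGeometry.angle (R i.castSucc) (R i.succ) (R j.succ) =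
        EuclideanGeometry.angle (P i.castSucc) (P i.succ) (P j.succ))}

/-- The vertex number `k` (for `k ≤ n`). -/
def vx {n : ℕ} (P : Fin (n + 1) → E3) (k : ℕ) : E3 := P (Fin.ofNat (n + 1) k)

/-- The joint angle between link `k` (from vertex `k` to vertex `k + 1`) and link `k + 1`, for
`k + 2 ≤ n`. -/
noncomputable def jointAngle {n : ℕ} (P : Fin (n + 1) → E3) (k : ℕ) : ℝ :=
  EuclideanGeometry.angle (vx P k) (vx P (k + 1)) (vx P (k + 2))

/-- Joint `i` of a chain with `n` links and joint angles `θ` is loose: there are latitudes
`h k` strictly between `0` and `π / 2` for the links such that for every joint `k` the point pairs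
at latitudes `h k`, `h (k + 1)` on the sphere can have spherical distance `π - θ k`, and such that
for the joint `i` this is only possible with difference of longitudes `0` or `π`. -/
def Loose (n : ℕ) (θ : ℕ → ℝ) (i : ℕ) : Prop :=
  ∃ h : ℕ → ℝ, (∀ k, 0 < h k ∧ h k < π / 2) ∧
    (∀ k, k + 2 ≤ n → h k + h (k + 1) ≤ θ k ∧ |h k - h (k + 1)| ≤ π - θ k) ∧
    (h i + h (i + 1) = θ i ∨ |h i - h (i + 1)| = π - θ i)

/-- The inner product of the vector products `a × b` and `c × d` where `a, b` are the links
`i, i + 1` and `c, d` the links `j, j + 1` (written by the Binet-Cauchy identity). For a flat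
configuration it is positive exactly when the chain makes a proper turn at both joints `i` and
`j`, both to the same side. -/
noncomputable def turnProd {n : ℕ} (P : Fin (n + 1) → E3) (i j : ℕ) : ℝ :=
  inner ℝ (vx P (i + 1) - vx P i) (vx P (j + 1) - vx P j) *
    inner ℝ (vx P (i + 2) - vx P (i + 1)) (vx P (j + 2) - vx P (j + 1)) -
  inner ℝ (vx P (i + 1) - vx P i) (vx P (j + 2) - vx P (j + 1)) *
    inner ℝ (vx P (i + 2) - vx P (i + 1)) (vx P (j + 1) - vx P j)

end Pool.Agent.Lib_helper54.Flat
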