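import Pool.Agent.Lib_helper54.Flat.Line

set_option autoImplicit false
set_option linter.unusedSectionVars false
set_option linter.unusedVariables false

namespace Pool.Agent.Lib_helper54.Flat

open Real

theorem ON_rot {a b c : E3} (h : ON a b c) (φ : ℝ) :
    ON a (cos φ • b + sin φ • c) (-sin φ • b + cos φ • c) := by
  have e1 : a = (1 : ℝ) • a + (0 : ℝ) • b + (0 : ℝ) • c := by simp
  have e2 : cos φ • b + sin φ • c = (0 : ℝ) • a + cos φ • b + sin φ • c := by simp
  have e3 : -sin φ • b + cos φ • c = (0 : ℝ) • a + (-sin φ) • b + cos φ • c := by simp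
  have hsc := sin_sq_add_cos_sq φ
  refine ⟨h.aa, ?_, ?_, ?_, ?_, ?_⟩
  · rw [e2, inner_comb h]; nlinarith
  · rw [e3, inner_comb h]; nlinarith
  · have := inner_comb h 1 0 0 0 (cos φ) (sin φ)
    rw [← e1, ← e2] at this
    rw [this]; ring
  · have := inner_comb h 1 0 0 0 (-sin φ) (cos φ)
    rw [← e1, ← e3] at this
    rw [this]; ring
  · rw [e2, e3, inner_comb h]; ring

/-- rotation of the frame -/
theorem joined_rot {n : ℕ} {P : Fin (n + 1) → E3} {p q a b c : E3} {ω ω' φ : ℝ}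
    {l s θ h0 : ℕ → ℝ} (hD : Data P l θ) (hs : ∀ k, s k = 1 ∨ s k = -1) (hON : ON a b c)
    (g0 : Good n θ h0) (hpos0 : ∀ k, 0 < h0 k) :
    JoinedIn (freeSpace P) (chain n p a b c ω l s h0 θ)
      (chain n q a (cos φ • b + sin φ • c) (-sin φ • b + cos φ • c) ω' l s h0 θ) := by
  have key := joined_family (P := P) (p := fun t : unitInterval => (1 - (t : ℝ)) • p + (t : ℝ) • q)
    (a := fun _ => a) (b := fun t : unitInterval => cos (t * φ) • b + sin (t * φ) • c)
    (c := fun t : unitInterval => -sin (t * φ) • b + cos (t * φ) • c)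
    (ω := fun t : unitInterval => (1 - (t : ℝ)) * ω + (t : ℝ) * ω') (l := l) (s := s) (θ := θ)
    (h := fun (t : unitInterval) k => h0 k) hD hs ?_ continuous_const ?_ ?_ ?_ ?_ ?_ ?_ ?_
  · simpa using key
  · fun_prop
  · fun_prop
  · fun_prop
  · fun_prop
  · intro k; fun_prop
  · intro t
    exact ON_rot hON _
  · intro t; exact g0
  · intro t
    exact simple_of_pos (ON_rot hON _) hD.pos fun k => ⟨hpos0 k, g0.lt k⟩

theorem exists_angle {x y : ℝ} (h : x * x + y * y = 1) : ∃ φ : ℝ, cos φ = x ∧ sin φ = y := by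
  have hz : ‖(⟨x, y⟩ : ℂ)‖ = 1 := by
    have : ‖(⟨x, y⟩ : ℂ)‖ ^ 2 = 1 := by
      rw [← Complex.normSq_eq_norm_sq, Complex.normSq_apply]
      exact h
    have h0 := norm_nonneg (⟨x, y⟩ : ℂ)
    nlinarith
  have hne : (⟨x, y⟩ : ℂ) ≠ 0 := by
    intro h0
    rw [h0, norm_zero] at hz
    exact zero_ne_one hz
  refine ⟨Complex.arg ⟨x, y⟩, ?_, ?_⟩
  · rw [Complex.cos_arg hne, hz, div_one]
  · rw [Complex.sin_arg, hz, div_one]

theorem exists_unit_perp (K : Submodule ℝ E3) (hK : Module.finrank ℝ K < 3) :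
    ∃ c : E3, inner ℝ c c = (1 : ℝ) ∧ ∀ v ∈ K, inner ℝ c v = (0 : ℝ) := by
  have h1 := Submodule.finrank_add_finrank_orthogonal K
  have h2 : Module.finrank ℝ E3 = 3 := by simp
  have h3 : Kᗮ ≠ ⊥ := by
    intro h0
    rw [h0, finrank_bot, h2] at h1
    omega
  obtain ⟨v, hv, hv0⟩ := Submodule.exists_mem_ne_zero_of_ne_bot h3
  have hn : ‖v‖ ≠ 0 := norm_ne_zero_iff.2 hv0
  refine ⟨(‖v‖)⁻¹ • v, ?_, ?_⟩
  · rw [inner_smul_left, inner_smul_right, real_inner_self_eq_norm_sq, RCLike.conj_to_real]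
    field_simp
  · intro w hw
    rw [inner_smul_left, Submodule.inner_left_of_mem_orthogonal hw hv, mul_zero]

/-- complete two orthonormal vectors to a frame -/
theorem exists_frame {a c : E3} (haa : inner ℝ a a = (1 : ℝ)) (hcc : inner ℝ c c = (1 : ℝ))
    (hac : inner ℝ a c = (0 : ℝ)) :
    ∃ b, ON a b c ∧ ∀ v : E3, v = (inner ℝ a v : ℝ) • a + (inner ℝ b v : ℝ) • b +
      (inner ℝ c v : ℝ) • c := by
  have hv : Orthonormal ℝ (({0, 2} : Set (Fin 3)).restrict ![a, 0, c]) := by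
    rw [orthonormal_iff_ite]
    rintro ⟨i, hi⟩ ⟨j, hj⟩
    have hca : inner ℝ c a = (0 : ℝ) := by rw [real_inner_comm]; exact hac
    rcases hi with rfl | hi <;> rcases hj with rfl | hj
    · exact haa
    · rw [Set.mem_singleton_iff] at hj; subst hj
      exact hac
    · rw [Set.mem_singleton_iff] at hi; subst hi
      exact hca
    · rw [Set.mem_singleton_iff] at hi hj; subst hi; subst hj
      rw [if_pos rfl]
      exact hcc
  obtain ⟨e, he⟩ := hv.exists_orthonormalBasis_extension_of_card_eq (by simp)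
  have h0 : e 0 = a := by rw [he 0 (by simp)]; rfl
  have h2 : e 2 = c := by rw [he 2 (by simp)]; rfl
  have ho := orthonormal_iff_ite.1 e.orthonormal
  refine ⟨e 1, ⟨haa, ?_, hcc, ?_, hac, ?_⟩, ?_⟩
  · simpa using ho 1 1
  · rw [← h0]; simpa using ho 0 1
  · rw [← h2]; simpa using ho 1 2
  · intro v
    have := e.sum_repr v
    rw [Fin.sum_univ_three] at this
    simp only [e.repr_apply_apply] at this
    rw [h0, h2] at this
    exact this.symm

/-- two unit normals fit in one rotating frame -/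
theorem exists_two_frames {c c' : E3} (hcc : inner ℝ c c = (1 : ℝ))
    (hcc' : inner ℝ c' c' = (1 : ℝ)) :
    ∃ (a b : E3) (φ : ℝ), ON a b c ∧ c' = -sin φ • b + cos φ • c := by
  have hK : Module.finrank ℝ (Submodule.span ℝ ({c, c'} : Set E3)) < 3 := by
    have h1 := finrank_span_finset_le_card (R := ℝ) ({c, c'} : Finset E3)
    have h2 : ({c, c'} : Finset E3).card ≤ 2 := Finset.card_le_two
    rw [Finset.coe_insert, Finset.coe_singleton] at h1
    unfold Set.finrank at h1
    omega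
  obtain ⟨a, haa, ha⟩ := exists_unit_perp _ hK
  have hac : inner ℝ a c = (0 : ℝ) := ha c (Submodule.subset_span (by simp))
  have hac' : inner ℝ a c' = (0 : ℝ) := ha c' (Submodule.subset_span (by simp))
  obtain ⟨b, hON, hrep⟩ := exists_frame haa hcc hac
  have e := hrep c'
  rw [hac'] at e
  have hsq : (inner ℝ c c' : ℝ) * inner ℝ c c' + (-(inner ℝ b c') : ℝ) * -(inner ℝ b c') = 1 := by
    have h1 := inner_comb hON 0 (inner ℝ b c') (inner ℝ c c') 0 (inner ℝ b c') (inner ℝ c c')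
    rw [← e, hcc'] at h1
    linarith
  obtain ⟨φ, h1, h2⟩ := exists_angle hsq
  refine ⟨a, b, φ, hON, ?_⟩
  rw [h1, h2, neg_neg]
  conv_lhs => rw [e]
  rw [zero_smul, zero_add]

end Pool.Agent.Lib_helper54.Flat
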