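import Pool.Agent.Lib_helper54.Flat.Chain

set_option autoImplicit false
set_option linter.unusedSectionVars false
set_option linter.unusedVariables false

namespace Pool.Agent.Lib_helper54.Flat

open Real

/-- chains with the same lengths, heights and longitudes modulo full turns coincide -/
theorem chain_congr {n : ℕ} {p a b c : E3} {ω ω' : ℝ} {l s s' h θ : ℕ → ℝ}
    (H : ∀ k, k < n → cos (az ω s h θ k) = cos (az ω' s' h θ k) ∧
      sin (az ω s h θ k) = sin (az ω' s' h θ k)) :
    chain n p a b c ω l s h θ = chain n p a b c ω' l s' h θ := by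
  have key : ∀ k, k ≤ n → vtx p a b c ω l s h θ k = vtx p a b c ω' l s' h θ k := by
    intro k
    induction k with
    | zero => intro _; rfl
    | succ k ih =>
      intro hk
      rw [vtx_succ, vtx_succ, ih (by omega)]
      unfold dir
      rw [(H k (by omega)).1, (H k (by omega)).2]
  funext i
  exact key i.val (by have := i.isLt; omega)

theorem chain_congr_sign {n : ℕ} {p a b c : E3} {ω : ℝ} {l s s' h θ : ℕ → ℝ}
    (H : ∀ k, k + 2 ≤ n → s k = s' k) :
    chain n p a b c ω l s h θ = chain n p a b c ω l s' h θ := by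
  apply chain_congr
  have key : ∀ k, k < n → az ω s h θ k = az ω s' h θ k := by
    intro k
    induction k with
    | zero => intro _; rfl
    | succ k ih =>
      intro hk
      rw [az_succ, az_succ, ih (by omega), H k (by omega)]
  intro k hk
  rw [key k hk]
  exact ⟨rfl, rfl⟩

/-- a flip at a joint whose two links are parallel in the projection does nothing -/
theorem chain_flip {n : ℕ} {p a b c : E3} {ω : ℝ} {l s s' h θ : ℕ → ℝ} (i : ℕ)
    (hs : ∀ k, s k = 1 ∨ s k = -1) (hs' : ∀ k, s' k = 1 ∨ s' k = -1)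
    (H : ∀ k, k ≠ i → s k = s' k)
    (hd : dlt (θ i) (h i) (h (i + 1)) = 0 ∨ dlt (θ i) (h i) (h (i + 1)) = π) :
    chain n p a b c ω l s h θ = chain n p a b c ω l s' h θ := by
  have key : ∀ k, ∃ m : ℤ, az ω s h θ k = az ω s' h θ k + m * (2 * π) := by
    intro k
    induction k with
    | zero => exact ⟨0, by simp [az]⟩
    | succ k ih =>
      obtain ⟨m, hm⟩ := ih
      rw [az_succ, az_succ, hm]
      by_cases hk : k = i
      · subst hk
        rcases hd with hd | hd
        · exact ⟨m, by rw [hd]; ring⟩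
        · rw [hd]
          rcases hs k with h1 | h1 <;> rcases hs' k with h2 | h2 <;> rw [h1, h2]
          · exact ⟨m, by ring⟩
          · exact ⟨m + 1, by push_cast; ring⟩
          · exact ⟨m - 1, by push_cast; ring⟩
          · exact ⟨m, by ring⟩
      · exact ⟨m, by rw [H k hk]; ring⟩
  apply chain_congr
  intro k _
  obtain ⟨m, hm⟩ := key k
  rw [hm, cos_add_int_mul_two_pi, sin_add_int_mul_two_pi]
  exact ⟨rfl, rfl⟩

/-- the set of admissible height functions is convex -/
theorem Good.line {n : ℕ} {θ h0 h1 : ℕ → ℝ} (g0 : Good n θ h0) (g1 : Good n θ h1) {t : ℝ}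
    (ht0 : 0 ≤ t) (ht1 : t ≤ 1) : Good n θ fun k => (1 - t) * h0 k + t * h1 k := by
  have hu : 0 ≤ 1 - t := by linarith
  refine ⟨?_, ?_, ?_, ?_⟩
  · intro k
    have := mul_nonneg hu (g0.nonneg k)
    have := mul_nonneg ht0 (g1.nonneg k)
    linarith
  · intro k
    have e0 := g0.lt k
    have e1 := g1.lt k
    rcases eq_or_lt_of_le ht0 with h | h
    · rw [← h]; simpa using e0
    · have := mul_lt_mul_of_pos_left e1 h
      have := mul_le_mul_of_nonneg_left e0.le hu
      show (1 - t) * h0 k + t * h1 k < π / 2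
      linarith
  · intro k hk
    have := mul_le_mul_of_nonneg_left (g0.sum k hk) hu
    have := mul_le_mul_of_nonneg_left (g1.sum k hk) ht0
    show (1 - t) * h0 k + t * h1 k + ((1 - t) * h0 (k + 1) + t * h1 (k + 1)) ≤ θ k
    nlinarith
  · intro k hk
    have e0 := abs_le.1 (g0.diff k hk)
    have e1 := abs_le.1 (g1.diff k hk)
    have a1 := mul_le_mul_of_nonneg_left e0.1 hu
    have a2 := mul_le_mul_of_nonneg_left e0.2 hu
    have a3 := mul_le_mul_of_nonneg_left e1.1 ht0
    have a4 := mul_le_mul_of_nonneg_left e1.2 ht0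
    show |(1 - t) * h0 k + t * h1 k - ((1 - t) * h0 (k + 1) + t * h1 (k + 1))| ≤ π - θ k
    rw [abs_le]
    constructor <;> nlinarith

/-- straight motion in the heights -/
theorem joined_line {n : ℕ} {P : Fin (n + 1) → E3} {p a b c : E3} {ω : ℝ}
    {l s θ h0 h1 : ℕ → ℝ} (hD : Data P l θ) (hs : ∀ k, s k = 1 ∨ s k = -1) (hON : ON a b c)
    (g0 : Good n θ h0) (g1 : Good n θ h1)
    (hsimple : IsSimple (chain n p a b c ω l s h0 θ)) (hpos : ∀ k, 0 < h1 k) :
    JoinedIn (freeSpace P) (chain n p a b c ω l s h0 θ) (chain n p a b c ω l s h1 θ) := by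
  have key := joined_family (P := P) (p := fun _ => p) (a := fun _ => a) (b := fun _ => b)
    (c := fun _ => c) (ω := fun _ => ω) (l := l) (s := s) (θ := θ)
    (h := fun (t : unitInterval) k => (1 - (t : ℝ)) * h0 k + (t : ℝ) * h1 k) hD hs
    continuous_const continuous_const continuous_const continuous_const continuous_const
    ?_ (fun _ => hON) ?_ ?_
  · simpa using key
  · intro k
    fun_prop
  · intro t
    exact g0.line g1 t.2.1 t.2.2
  · intro t
    rcases eq_or_lt_of_le t.2.1 with h | h
    · have e : (t : ℝ) = 0 := h.symm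
      simpa [e] using hsimple
    · apply simple_of_pos hON hD.pos
      intro k
      constructor
      · have := mul_pos h (hpos k)
        have := mul_nonneg (by linarith [t.2.2] : (0 : ℝ) ≤ 1 - t) (g0.nonneg k)
        show 0 < (1 - (t : ℝ)) * h0 k + (t : ℝ) * h1 k
        linarith
      · exact (g0.line g1 t.2.1 t.2.2).lt k

theorem joined_line_pos {n : ℕ} {P : Fin (n + 1) → E3} {p a b c : E3} {ω : ℝ}
    {l s θ h0 h1 : ℕ → ℝ} (hD : Data P l θ) (hs : ∀ k, s k = 1 ∨ s k = -1) (hON : ON a b c)
    (g0 : Good n θ h0) (g1 : Good n θ h1) (hpos0 : ∀ k, 0 < h0 k) (hpos : ∀ k, 0 < h1 k) :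
    JoinedIn (freeSpace P) (chain n p a b c ω l s h0 θ) (chain n p a b c ω l s h1 θ) :=
  joined_line hD hs hON g0 g1
    (simple_of_pos hON hD.pos fun k => ⟨hpos0 k, g0.lt k⟩) hpos

/-- the sign at a loose joint can be changed -/
theorem joined_flip {n : ℕ} {P : Fin (n + 1) → E3} {p a b c : E3} {ω : ℝ}
    {l s s' θ h0 : ℕ → ℝ} (hD : Data P l θ) (hs : ∀ k, s k = 1 ∨ s k = -1)
    (hs' : ∀ k, s' k = 1 ∨ s' k = -1) (hON : ON a b c)
    (g0 : Good n θ h0) (hpos0 : ∀ k, 0 < h0 k) (i : ℕ) (hi : Loose n θ i)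
    (H : ∀ k, k ≠ i → s k = s' k) :
    JoinedIn (freeSpace P) (chain n p a b c ω l s h0 θ) (chain n p a b c ω l s' h0 θ) := by
  obtain ⟨h, hh, hc, he⟩ := hi
  have g1 : Good n θ h := ⟨fun k => (hh k).1.le, fun k => (hh k).2, fun k hk => (hc k hk).1,
    fun k hk => (hc k hk).2⟩
  have habs : ∀ k, |h k| < π / 2 := fun k => by
    rw [abs_of_pos (hh k).1]; exact (hh k).2
  have hd : dlt (θ i) (h i) (h (i + 1)) = 0 ∨ dlt (θ i) (h i) (h (i + 1)) = π := by
    rcases he with he | he
    · exact Or.inr (dlt_of_sum (habs _) (habs _) he)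
    · exact Or.inl (dlt_of_diff (habs _) (habs _) he)
  have e1 := joined_line_pos (p := p) (ω := ω) hD hs hON g0 g1 hpos0 (fun k => (hh k).1)
  have e2 := joined_line_pos (p := p) (ω := ω) hD hs' hON g0 g1 hpos0 (fun k => (hh k).1)
  rw [chain_flip (h := h) i hs hs' H hd] at e1
  exact e1.trans e2.symm

/-- signs can be changed at all loose joints -/
theorem joined_signs {n : ℕ} {P : Fin (n + 1) → E3} {p a b c : E3} {ω : ℝ}
    {l s s' θ h0 : ℕ → ℝ} (hD : Data P l θ) (hs : ∀ k, s k = 1 ∨ s k = -1)
    (hs' : ∀ k, s' k = 1 ∨ s' k = -1) (hON : ON a b c)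
    (g0 : Good n θ h0) (hpos0 : ∀ k, 0 < h0 k)
    (H : ∀ k, k + 2 ≤ n → ¬ Loose n θ k → s k = s' k) :
    JoinedIn (freeSpace P) (chain n p a b c ω l s h0 θ) (chain n p a b c ω l s' h0 θ) := by
  set u : ℕ → ℕ → ℝ := fun j k => if k < j then s' k else s k with hu
  have hu1 : ∀ j k, u j k = 1 ∨ u j k = -1 := by
    intro j k
    simp only [hu]
    split_ifs
    · exact hs' k
    · exact hs k
  have hmem : ∀ j, chain n p a b c ω l (u j) h0 θ ∈ freeSpace P := fun j =>
    mem_free hD hON g0 (hu1 j) (simple_of_pos hON hD.pos fun k => ⟨hpos0 k, g0.lt k⟩)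
  have key : ∀ j, j + 1 ≤ n → JoinedIn (freeSpace P) (chain n p a b c ω l s h0 θ)
      (chain n p a b c ω l (u j) h0 θ) := by
    intro j
    induction j with
    | zero =>
      intro _
      have : u 0 = s := by funext k; simp [hu]
      rw [this]
      exact JoinedIn.refl (this ▸ hmem 0)
    | succ j ih =>
      intro hj
      refine (ih (by omega)).trans ?_
      by_cases hl : Loose n θ j
      · apply joined_flip hD (hu1 j) (hu1 (j + 1)) hON g0 hpos0 j hl
        intro k hk
        simp only [hu]
        by_cases h1 : k < j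
        · rw [if_pos h1, if_pos (by omega)]
        · rw [if_neg h1, if_neg (by omega)]
      · have : u j = u (j + 1) := by
          funext k
          simp only [hu]
          rcases lt_trichotomy k j with h1 | h1 | h1
          · rw [if_pos h1, if_pos (by omega)]
          · subst h1
            rw [if_neg (lt_irrefl _), if_pos (by omega)]
            exact H k (by omega) hl
          · rw [if_neg (by omega), if_neg (by omega)]
        rw [← this]
        exact JoinedIn.refl (hmem j)
  rcases Nat.eq_zero_or_pos n with h0n | hn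
  · have : chain n p a b c ω l s h0 θ = chain n p a b c ω l s' h0 θ :=
      chain_congr_sign fun k hk => by omega
    rw [← this]
    exact JoinedIn.refl (mem_free hD hON g0 hs
      (simple_of_pos hON hD.pos fun k => ⟨hpos0 k, g0.lt k⟩))
  · have e := key (n - 1) (by omega)
    have : chain n p a b c ω l (u (n - 1)) h0 θ = chain n p a b c ω l s' h0 θ := by
      apply chain_congr_sign
      intro k hk
      simp only [hu]
      rw [if_pos (by omega)]
    rw [this] at e
    exact e

end Pool.Agent.Lib_helper54.Flat
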