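import Pool.Agent.Lib_helper54.Flat.Repr

set_option autoImplicit false
set_option linter.unusedSectionVars false
set_option linter.unusedVariables false

namespace Pool.Agent.Lib_helper54.Flat

open Real

variable {n : ℕ} {P Q : Fin (n + 1) → E3} {l θ : ℕ → ℝ}

theorem chain_mirror {q a b c c' : E3} {ω : ℝ} {s : ℕ → ℝ} :
    chain n q a b c ω l s (fun _ => 0) θ =
      chain n q a (-b) c' (-ω) l (fun k => -s k) (fun _ => 0) θ := by
  have haz : ∀ k, az (-ω) (fun k => -s k) (fun _ => 0) θ k = -az ω s (fun _ => 0) θ k := by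
    intro k
    induction k with
    | zero => rfl
    | succ k ih => rw [az_succ, az_succ, ih]; ring
  have hv : ∀ k, vtx q a b c ω l s (fun _ => 0) θ k =
      vtx q a (-b) c' (-ω) l (fun k => -s k) (fun _ => 0) θ k := by
    intro k
    induction k with
    | zero => rfl
    | succ k ih =>
      rw [vtx_succ, vtx_succ, ← ih]
      unfold dir
      rw [haz k]
      simp only [cos_zero, one_mul, sin_zero, zero_smul, add_zero, cos_neg, sin_neg, smul_neg,
        neg_smul, neg_neg]
  funext i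
  exact hv i.val

theorem main_aux (hD : Data P l θ) (hP : IsSimple P) (hQ : IsSimple Q) {p q a b c : E3}
    {ω ω' φ : ℝ} {s s' : ℕ → ℝ} (hON : ON a b c)
    (hs : ∀ k, s k = 1 ∨ s k = -1) (hs' : ∀ k, s' k = 1 ∨ s' k = -1)
    (eP : P = chain n p a b c ω l s (fun _ => 0) θ)
    (eQ : Q = chain n q a (cos φ • b + sin φ • c) (-sin φ • b + cos φ • c) ω' l s'
      (fun _ => 0) θ)
    (H : ∀ k, k + 2 ≤ n → ¬ Loose n θ k → s k = s' k) :
    JoinedIn (freeSpace P) P Q := by
  have hpos : ∀ k, k + 2 ≤ n → 0 < θ k := fun k hk => theta_pos hD hP hk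
  obtain ⟨ε, h0, h1, h2⟩ := exists_eps θ (n - 1) fun k hk => hpos k (by omega)
  have g0 : Good n θ fun _ => 0 := good_const le_rfl (by positivity)
    (fun k hk => by linarith [hpos k hk]) hD.ang_le
  have g1 : Good n θ fun _ => ε := good_const h0.le h1 (fun k hk => h2 k (by omega)) hD.ang_le
  have hON' := ON_rot hON φ
  have m1 := joined_line hD hs hON g0 g1 (eP ▸ hP) (fun _ => h0)
  have m2 := joined_rot (q := q) (ω' := ω') (φ := φ) (p := p) (ω := ω) hD hs hON g1
    (fun _ => h0)
  have m3 := joined_signs (p := q) (ω := ω') hD hs hs' hON' g1 (fun _ => h0) H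
  have m4 := joined_line hD hs' hON' g0 g1 (eQ ▸ hQ) (fun _ => h0)
  rw [← eP] at m1
  rw [← eQ] at m4
  exact ((m1.trans m2).trans m3).trans m4.symm

theorem exists_normal (hP : Coplanar ℝ (Set.range P)) :
    ∃ c : E3, inner ℝ c c = (1 : ℝ) ∧
      ∀ k, k < n → inner ℝ c (vx P (k + 1) - vx P k) = (0 : ℝ) := by
  have h1 := coplanar_iff_finrank_le_two.1 hP
  obtain ⟨c, hc, h2⟩ := exists_unit_perp (vectorSpan ℝ (Set.range P)) (by omega)
  refine ⟨c, hc, fun k _ => h2 _ ?_⟩
  exact vsub_mem_vectorSpan ℝ ⟨_, rfl⟩ ⟨_, rfl⟩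

theorem main (hP : IsSimple P) (cP : Coplanar ℝ (Set.range P)) (cQ : Coplanar ℝ (Set.range Q))
    (hQ : Q ∈ freeSpace P)
    (H : ∀ i j, i + 2 ≤ n → j + 2 ≤ n → ¬ Loose n (jointAngle P) i →
      ¬ Loose n (jointAngle P) j → (0 < turnProd P i j ↔ 0 < turnProd Q i j)) :
    JoinedIn (freeSpace P) P Q := by
  set l := len P
  set θ := jointAngle P
  have hD : Data P l θ := data_of_simple hP
  have hDQ : Data Q l θ := ⟨hD.pos, fun i => by rw [hQ.2.1 i, hD.len i],
    fun i j hij => by rw [hQ.2.2 i j hij, hD.ang i j hij], hD.ang_nonneg, hD.ang_le⟩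
  obtain ⟨c, hcc, hc⟩ := exists_normal cP
  obtain ⟨c', hcc', hc'⟩ := exists_normal cQ
  obtain ⟨a, b, φ, hON, rfl⟩ := exists_two_frames hcc hcc'
  have hON' := ON_rot hON φ
  obtain ⟨ω, s, hs, eP⟩ := flat_repr hD hON hc
  obtain ⟨ω', s', hs', eQ⟩ := flat_repr hDQ hON' hc'
  have hsin : ∀ k, k + 2 ≤ n → ¬ Loose n θ k → 0 < sin (θ k) := by
    intro k hk hl
    have h1 := theta_pos hD hP hk
    have h2 : θ k < π := lt_of_le_of_ne (hD.ang_le k) fun he =>
      hl (loose_of_pi hD.ang_le (fun k hk => theta_pos hD hP hk) he)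
    exact sin_pos_of_pos_of_lt_pi h1 h2
  have hP' : ∀ i j, i + 2 ≤ n → j + 2 ≤ n → ¬ Loose n θ i → ¬ Loose n θ j →
      (0 < turnProd P i j ↔ 0 < s i * s j) := by
    intro i j hi hj hi' hj'
    have h1 := mul_pos (mul_pos (hD.pos i) (hD.pos (i + 1))) (mul_pos (hD.pos j) (hD.pos (j + 1)))
    have h2 := mul_pos (hsin i hi hi') (hsin j hj hj')
    rw [eP, turnProd_chain hON hs hD.ang_nonneg hD.ang_le hi hj, mul_pos_iff_of_pos_left h1,
      mul_pos_iff_of_pos_right h2]
  have hQ' : ∀ i j, i + 2 ≤ n → j + 2 ≤ n → ¬ Loose n θ i → ¬ Loose n θ j →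
      (0 < turnProd Q i j ↔ 0 < s' i * s' j) := by
    intro i j hi hj hi' hj'
    have h1 := mul_pos (mul_pos (hD.pos i) (hD.pos (i + 1))) (mul_pos (hD.pos j) (hD.pos (j + 1)))
    have h2 := mul_pos (hsin i hi hi') (hsin j hj hj')
    rw [eQ, turnProd_chain hON' hs' hD.ang_nonneg hD.ang_le hi hj, mul_pos_iff_of_pos_left h1,
      mul_pos_iff_of_pos_right h2]
  have key : ∀ i j, i + 2 ≤ n → j + 2 ≤ n → ¬ Loose n θ i → ¬ Loose n θ j →
      (0 < s i * s j ↔ 0 < s' i * s' j) := by
    intro i j hi hj hi' hj'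
    rw [← hP' i j hi hj hi' hj', H i j hi hj hi' hj', hQ' i j hi hj hi' hj']
  by_cases hex : ∃ i, i + 2 ≤ n ∧ ¬ Loose n θ i ∧ s i ≠ s' i
  · obtain ⟨i, hi, hi', hne⟩ := hex
    have hopp : ∀ k, k + 2 ≤ n → ¬ Loose n θ k → s k = -s' k := by
      intro k hk hk'
      have h3 := key i k hi hk hi' hk'
      have m1 : ∀ x y : ℝ, (x = 1 ∨ x = -1) → (y = 1 ∨ y = -1) → (0 < x * y ↔ x = y) := by
        rintro x y (rfl | rfl) (rfl | rfl) <;> norm_num
      rw [m1 _ _ (hs i) (hs k), m1 _ _ (hs' i) (hs' k)] at h3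
      have m2 : ∀ x y : ℝ, (x = 1 ∨ x = -1) → (y = 1 ∨ y = -1) → x ≠ y → x = -y := by
        rintro x y (rfl | rfl) (rfl | rfl) h
        · exact absurd rfl h
        · rw [neg_neg]
        · rfl
        · exact absurd rfl h
      by_cases hsk : s k = s' k
      · exfalso
        rcases hs k with a | a
        · rcases hs i with d | d
          · exact hne (by rw [d, h3.1 (by rw [d, a]), ← hsk, a])
          · have e1 : s' i = 1 := by
              rcases hs' i with f | f
              · exact f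
              · exact absurd (d.trans f.symm) hne
            have := h3.2 (by rw [e1, ← hsk, a])
            rw [d, a] at this
            norm_num at this
        · rcases hs i with d | d
          · have e1 : s' i = -1 := by
              rcases hs' i with f | f
              · exact absurd (d.trans f.symm) hne
              · exact f
            have := h3.2 (by rw [e1, ← hsk, a])
            rw [d, a] at this
            norm_num at this
          · exact hne (by rw [d, h3.1 (by rw [d, a]), ← hsk, a])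
      · exact m2 _ _ (hs k) (hs' k) hsk
    have eb : cos (φ + π) • b + sin (φ + π) • c = -(cos φ • b + sin φ • c) := by
      rw [cos_add_pi, sin_add_pi]; module
    refine main_aux (φ := φ + π) hD hP hQ.1 hON hs (s' := fun k => -s' k) ?_ eP
      (ω' := -ω') (q := vx Q 0) ?_ hopp
    · intro k
      rcases hs' k with h | h
      · right; simp only [h]
      · left; simp only [h, neg_neg]
    · rw [eb, ← chain_mirror (c := -sin φ • b + cos φ • c)]
      exact eQ
  · push Not at hex
    exact main_aux hD hP hQ.1 hON hs hs' eP eQ fun k hk hk' => hex k hk hk'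

end Pool.Agent.Lib_helper54.Flat
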